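import Pool.Agent.Helper38.EC.GoalsE1

/-!
# Packet RBT (MP_ecc237_nt, (E.1)): family B, t-channel
-/

set_option autoImplicit false

open MeasureTheory Filter Topology Set

namespace Pool.Agent.Helper33.EC.E_RBT

open EC237 EC237.DX

/-- One of the six terms. -/
noncomputable def T (w : ℂ) (i j l : ℕ) (p : Tri) : ℂ :=
  if ClT 1 5 5 p then ab w l (-1) (p.2.1 + p.2.2) *
    (xc w i (-1) 0 p.2.1 p.2.2 * xc w j 0 1 (k4 p) p.1) else 0

/-- The outer factor. -/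
noncomputable def cf (w : ℂ) (l : ℕ) (t : ℤ × ℤ) : ℂ := if InCl 4 t then ab w l (-1) t else 0

/-- The inner factor with `κ2`. -/
noncomputable def uf (w : ℂ) (i : ℕ) (t k : ℤ × ℤ) : ℂ :=
  if InCl 5 k ∧ InCl 5 (t - k) then xc w i (-1) 0 k (t - k) else 0

/-- The inner factor with `κ1`. -/
noncomputable def vf (w : ℂ) (j : ℕ) (t k : ℤ × ℤ) : ℂ :=
  if InCl 1 k ∧ InCl 1 (-t - k) then xc w j 0 1 (-t - k) k else 0

theorem T_eq (w : ℂ) (i j l : ℕ) (p : Tri) : T w i j l p =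
    cf w l (p.2.1 + p.2.2) * (uf w i (p.2.1 + p.2.2) p.2.1 * vf w j (p.2.1 + p.2.2) p.1) := by
  have e1 : p.2.1 + p.2.2 - p.2.1 = p.2.2 := by abel
  have e2 : -(p.2.1 + p.2.2) - p.1 = k4 p := by unfold k4; abel
  unfold T cf uf vf
  rw [e1, e2]
  by_cases h : ClT 1 5 5 p
  · rw [if_pos h]
    obtain ⟨h1, h2, h3⟩ := h
    have h4 : InCl 4 (p.2.1 + p.2.2) := by
      simp only [InCl, Prod.fst_add, Prod.snd_add] at *; omega
    have h5 : InCl 1 (k4 p) := by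
      simp only [InCl, k4, Prod.fst_add, Prod.snd_add, Prod.fst_neg, Prod.snd_neg] at *; omega
    rw [if_pos h4, if_pos ⟨h2, h3⟩, if_pos ⟨h1, h5⟩]
  · rw [if_neg h]
    by_cases h1 : InCl 5 p.2.1 ∧ InCl 5 p.2.2
    · by_cases h2 : InCl 1 p.1 ∧ InCl 1 (k4 p)
      · exact absurd ⟨h2.1, h1.1, h1.2⟩ h
      · rw [if_neg h2, mul_zero, mul_zero]
    · rw [if_neg h1, zero_mul, mul_zero]

theorem T_summable (hPS : G_PS) {y : ℝ} (hy : 0 < y) {i j l : ℕ} (h : i + j + l = 2) :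
    Summable (T (y:ℂ) i j l) := by
  have h1 := (hPS y hy i j l h (-1) 0 0 1 (-1) (by norm_num) (by norm_num) (by norm_num)
    (by norm_num) (by norm_num)).2
  refine Summable.of_norm_bounded h1 (fun p => ?_)
  unfold T
  by_cases hc : ClT 1 5 5 p
  · rw [if_pos hc]
    obtain ⟨c1, c2, c3⟩ := hc
    have h0 : ∀ k : ℤ × ℤ, (InCl 1 k ∨ InCl 5 k) → k ≠ 0 := by
      rintro k hk rfl
      simp only [InCl, Prod.fst_zero, Prod.snd_zero] at hk
      omega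
    have h5 : InCl 1 (k4 p) := by
      simp only [InCl, k4, Prod.fst_add, Prod.snd_add, Prod.fst_neg, Prod.snd_neg] at *; omega
    rw [if_pos ⟨h0 _ (Or.inl c1), h0 _ (Or.inr c2), h0 _ (Or.inr c3), h0 _ (Or.inl h5)⟩]
  · rw [if_neg hc, norm_zero]
    split_ifs
    · exact norm_nonneg _
    · exact le_refl _

theorem tsum_uf (w : ℂ) (i : ℕ) (t : ℤ × ℤ) : ∑' k, uf w i t k = cs w i 5 5 (-1) 0 t := rfl

theorem tsum_vf (hXC : G_XC) (w : ℂ) (j : ℕ) (t : ℤ × ℤ) :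
    ∑' k, vf w j t k = -cs w j 1 1 1 0 (-t) := by
  unfold cs
  rw [← tsum_neg]
  refine tsum_congr fun k => ?_
  unfold vf
  split_ifs
  · rw [(hXC w).1 j 0 1]
  · rw [neg_zero]

theorem T_tsum (hFUB : G_FUB) (hXC : G_XC) (hPS : G_PS) {y : ℝ} (hy : 0 < y) {i j l : ℕ}
    (h : i + j + l = 2) :
    Summable (fun t => cf (y:ℂ) l t * (cs (y:ℂ) i 5 5 (-1) 0 t * -cs (y:ℂ) j 1 1 1 0 (-t))) ∧
    ∑' p, T (y:ℂ) i j l p =
      ∑' t, cf (y:ℂ) l t * (cs (y:ℂ) i 5 5 (-1) 0 t * -cs (y:ℂ) j 1 1 1 0 (-t)) := by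
  have h1 := (hFUB (cf (y:ℂ) l) (uf (y:ℂ) i) (vf (y:ℂ) j)).2
  simp only [← T_eq] at h1
  have h2 := h1 (T_summable hPS hy h)
  simp only [tsum_uf, tsum_vf hXC] at h2
  exact h2

theorem T_zero (hFUB : G_FUB) (hXC : G_XC) (hSYM : G_SYM) (hPS : G_PS) {y : ℝ} (hy : 0 < y)
    {i j l : ℕ} (h : i + j + l = 2) (hij : i = 0 ∨ j = 0) : ∑' p, T (y:ℂ) i j l p = 0 := by
  rw [(T_tsum hFUB hXC hPS hy h).2]
  have h2 := (hSYM y hy).2.1
  have : ∀ t, cf (y:ℂ) l t * (cs (y:ℂ) i 5 5 (-1) 0 t * -cs (y:ℂ) j 1 1 1 0 (-t)) = 0 := by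
    intro t
    rcases hij with rfl | rfl
    · rw [h2, zero_mul, mul_zero]
    · rw [h2 1, neg_zero, mul_zero, mul_zero]
  simp only [this, tsum_zero]

/-- The remaining term. -/
noncomputable def R (w : ℂ) (s : ℤ × ℤ) : ℂ :=
  if InCl 2 s then nI w s * (Ys w s * Ys w s) else 0

theorem main_term (hXC : G_XC) (hSYM : G_SYM) {y : ℝ} (hy : 0 < y) (t : ℤ × ℤ) :
    cf (y:ℂ) 0 t * (cs (y:ℂ) 1 5 5 (-1) 0 t * -cs (y:ℂ) 1 1 1 1 0 (-t)) =
      -R (y:ℂ) (-t) := by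
  obtain ⟨-, -, -, -, -, -, -, -, hab, -, -, hnI⟩ := hXC (y:ℂ)
  have h5 := (hSYM y hy).2.2.2.2.1 1 1 1 5 5 1 0 t (by norm_num) (by norm_num)
  rw [neg_zero] at h5
  unfold R cf Ys
  rw [← h5, hab, hnI]
  by_cases h : InCl 4 t
  · have h2 : InCl 2 (-t) := by
      simp only [InCl, Prod.fst_neg, Prod.snd_neg] at *; omega
    rw [if_pos h, if_pos h2]; ring
  · have h2 : ¬ InCl 2 (-t) := by
      simp only [InCl, Prod.fst_neg, Prod.snd_neg] at *; omega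
    rw [if_neg h, if_neg h2]; ring

theorem fam_eq (hXC : G_XC) (w : ℂ) (p : Tri) :
    famB (fun v1 v2 v3 v4 => PowerSeries.coeff 2 (Qs w v2 v3 v4 v1)) p =
      -(2 / 3) * w ^ 3 * (T w 0 2 0 p + T w 1 1 0 p + T w 2 0 0 p + T w 0 1 1 p + T w 1 0 1 p +
        T w 0 0 2 p) := by
  obtain ⟨-, -, -, -, -, -, -, h8, hab, -, -, -⟩ := hXC w
  unfold famB T
  by_cases h : ClT 1 5 5 p
  · simp only [if_pos h]
    rw [h8, hab]
    ring
  · simp only [if_neg h]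
    ring

theorem thm (hFUB : G_FUB) (hXC : G_XC) (hSYM : G_SYM) (hPS : G_PS) : G_RBT := by
  intro y hy
  have s1 := T_summable hPS hy (i := 0) (j := 2) (l := 0) (by norm_num)
  have s2 := T_summable hPS hy (i := 1) (j := 1) (l := 0) (by norm_num)
  have s3 := T_summable hPS hy (i := 2) (j := 0) (l := 0) (by norm_num)
  have s4 := T_summable hPS hy (i := 0) (j := 1) (l := 1) (by norm_num)
  have s5 := T_summable hPS hy (i := 1) (j := 0) (l := 1) (by norm_num)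
  have s6 := T_summable hPS hy (i := 0) (j := 0) (l := 2) (by norm_num)
  have sall := ((((s1.add s2).add s3).add s4).add s5).add s6
  have hfam : famB (fun v1 v2 v3 v4 => PowerSeries.coeff 2 (Qs (y:ℂ) v2 v3 v4 v1)) =
      fun p => -(2 / 3) * (y:ℂ) ^ 3 * (T (y:ℂ) 0 2 0 p + T (y:ℂ) 1 1 0 p + T (y:ℂ) 2 0 0 p +
        T (y:ℂ) 0 1 1 p + T (y:ℂ) 1 0 1 p + T (y:ℂ) 0 0 2 p) := by
    funext p
    exact fam_eq hXC _ p
  obtain ⟨m1, m2⟩ := T_tsum hFUB hXC hPS hy (i := 1) (j := 1) (l := 0) (by norm_num)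
  simp only [main_term hXC hSYM hy] at m1 m2
  have hneg : Summable (fun t => R (y:ℂ) (-t)) := by
    have := m1.neg
    simpa using this
  have hR : Summable (R (y:ℂ)) := by
    have := (Equiv.neg (ℤ × ℤ)).summable_iff (f := R (y:ℂ))
    exact this.1 hneg
  refine ⟨?_, hR, ?_⟩
  · rw [hfam]
    exact sall.mul_left _
  · rw [hfam, tsum_mul_left, ((((s1.add s2).add s3).add s4).add s5).tsum_add s6,
      (((s1.add s2).add s3).add s4).tsum_add s5, ((s1.add s2).add s3).tsum_add s4,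
      (s1.add s2).tsum_add s3, s1.tsum_add s2,
      T_zero hFUB hXC hSYM hPS hy (by norm_num) (Or.inl rfl),
      T_zero hFUB hXC hSYM hPS hy (by norm_num) (Or.inr rfl),
      T_zero hFUB hXC hSYM hPS hy (by norm_num) (Or.inl rfl),
      T_zero hFUB hXC hSYM hPS hy (by norm_num) (Or.inr rfl),
      T_zero hFUB hXC hSYM hPS hy (by norm_num) (Or.inl rfl), m2, tsum_neg]
    have h9 : ∑' t, R (y:ℂ) (-t) = ∑' s, R (y:ℂ) s := (Equiv.neg (ℤ × ℤ)).tsum_eq (R (y:ℂ))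
    rw [h9]
    unfold R
    ring

end Pool.Agent.Helper33.EC.E_RBT
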